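import Pool.Agent.N909.CL.Def

set_option autoImplicit false

namespace Pool.Agent.N868.CL.E

open Pool.Agent.N909.CL

theorem mem_Blk (b u : ℕ) (w : List Bool) : w ∈ Blk b u ↔ w.length = b ∧ w.count true = u := by
  unfold Blk
  rw [Finset.mem_filter, Finset.mem_image]
  constructor
  · rintro ⟨⟨v, -, rfl⟩, h⟩
    exact ⟨v.toList_length, h⟩
  · rintro ⟨h1, h2⟩
    exact ⟨⟨⟨w, h1⟩, Finset.mem_univ _, rfl⟩, h2⟩

theorem card_Blk : ∀ b u : ℕ, (Blk b u).card = b.choose u := by
  intro b
  induction b with
  | zero =>
    intro u
    cases u with
    | zero =>
      have : Blk 0 0 = {[]} := by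
        ext w
        rw [mem_Blk, Finset.mem_singleton]
        constructor
        · rintro ⟨h, -⟩
          exact List.length_eq_zero_iff.1 h
        · rintro rfl
          exact ⟨rfl, rfl⟩
      rw [this]
      rfl
    | succ u =>
      have : Blk 0 (u + 1) = ∅ := by
        apply Finset.eq_empty_of_forall_notMem
        intro w hw
        rw [mem_Blk] at hw
        obtain ⟨h, h2⟩ := hw
        have h3 := List.length_eq_zero_iff.1 h
        subst h3
        simp at h2
      rw [this]
      rfl
  | succ b ih =>
    intro u
    have hinj : ∀ c : Bool, Function.Injective (List.cons c) := fun c => List.cons_injective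
    cases u with
    | zero =>
      have : Blk (b + 1) 0 = (Blk b 0).image (List.cons false) := by
        ext w
        rw [mem_Blk, Finset.mem_image]
        constructor
        · rintro ⟨h, h2⟩
          cases w with
          | nil => simp at h
          | cons c w =>
            cases c with
            | true => simp at h2
            | false =>
              refine ⟨w, ?_, rfl⟩
              rw [mem_Blk]
              refine ⟨by simpa using h, by simpa using h2⟩
        · rintro ⟨v, hv, rfl⟩
          rw [mem_Blk] at hv
          exact ⟨by simp [hv.1], by simp [hv.2]⟩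
      rw [this, Finset.card_image_of_injective _ (hinj false), ih]
      simp
    | succ u =>
      have : Blk (b + 1) (u + 1) =
          (Blk b u).image (List.cons true) ∪ (Blk b (u + 1)).image (List.cons false) := by
        ext w
        rw [mem_Blk, Finset.mem_union, Finset.mem_image, Finset.mem_image]
        constructor
        · rintro ⟨h, h2⟩
          cases w with
          | nil => simp at h
          | cons c w =>
            cases c with
            | true =>
              left
              refine ⟨w, ?_, rfl⟩
              rw [mem_Blk]
              refine ⟨by simpa using h, by simpa using h2⟩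
            | false =>
              right
              refine ⟨w, ?_, rfl⟩
              rw [mem_Blk]
              refine ⟨by simpa using h, by simpa using h2⟩
        · rintro (⟨v, hv, rfl⟩ | ⟨v, hv, rfl⟩)
          · rw [mem_Blk] at hv
            exact ⟨by simp [hv.1], by simp [hv.2]⟩
          · rw [mem_Blk] at hv
            exact ⟨by simp [hv.1], by simp [hv.2]⟩
      rw [this, Finset.card_union_of_disjoint, Finset.card_image_of_injective _ (hinj true),
        Finset.card_image_of_injective _ (hinj false), ih, ih, Nat.choose_succ_succ]
      rw [Finset.disjoint_left]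
      intro w h1 h2
      obtain ⟨v1, -, rfl⟩ := Finset.mem_image.1 h1
      obtain ⟨v2, -, h⟩ := Finset.mem_image.1 h2
      simp at h

theorem card_Pat (b u J : ℕ) : (Pat b u J).card = (b.choose u) ^ J := by
  induction J with
  | zero => simp [Pat]
  | succ J ih =>
    show ((Blk b u ×ˢ Pat b u J).image (fun x => x.1 ++ x.2)).card = _
    rw [Finset.card_image_of_injOn, Finset.card_product, card_Blk, ih, pow_succ']
    rintro ⟨x1, x2⟩ hx ⟨y1, y2⟩ hy hxy
    rw [Finset.mem_coe, Finset.mem_product, mem_Blk] at hx hy
    have h1 : x1.length = y1.length := by
      have h2 := hx.1.1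
      have h3 := hy.1.1
      simp only at h2 h3
      rw [h2, h3]
    have h2 := List.append_inj (show x1 ++ x2 = y1 ++ y2 from hxy) h1
    rw [h2.1, h2.2]

theorem t : StmE := by
  intro b u J hb hub
  refine ⟨card_Pat b u J, ?_⟩
  induction J with
  | zero =>
    intro w hw
    have hw' : w = [] := by
      have : w ∈ ({[]} : Finset (List Bool)) := hw
      simpa using this
    subst hw'
    refine ⟨by simp, fun j hj => ?_, fun j hj => ?_⟩
    · have hj0 : j = 0 := by simpa using hj
      subst hj0
      simp
    · have hj0 : j = 0 := by simpa using hj
      subst hj0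
      refine ⟨[], ?_, [], by simp, by simp⟩
      simp [Pat]
  | succ J ih =>
    intro w hw
    have hw' : w ∈ (Blk b u ×ˢ Pat b u J).image (fun x => x.1 ++ x.2) := hw
    obtain ⟨⟨x, w'⟩, hx, rfl⟩ := Finset.mem_image.1 hw'
    rw [Finset.mem_product, mem_Blk] at hx
    obtain ⟨⟨hx1, hx2⟩, hw2⟩ := hx
    simp only at hx1 hx2 hw2
    obtain ⟨ih1, ih2, ih3⟩ := ih w' hw2
    simp only
    refine ⟨?_, fun j hj => ?_, fun j hj => ?_⟩
    · rw [List.length_append, hx1, ih1]
      ring
    · rcases lt_or_ge j b with h | h
      · have h1 : (x ++ w').take j = x.take j := List.take_append_of_le_length (by omega)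
        have h2 : (x.take j).count true ≤ x.count true := List.Sublist.count_le _ (List.take_sublist j x)
        rw [h1, Nat.div_eq_of_lt h]
        exact ⟨by simp, by omega⟩
      · obtain ⟨i, rfl⟩ : ∃ i, j = b + i := ⟨j - b, by omega⟩
        have hi : i ≤ b * J := by
          have : b * (J + 1) = b + b * J := by ring
          omega
        have h1 : (x ++ w').take (b + i) = x ++ w'.take i := by
          rw [List.take_append, List.take_of_length_le (by omega), hx1]
          congr 2
          omega
        have h2 : (b + i) / b = i / b + 1 := by
          rw [Nat.add_div_left _ (by omega)]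
        rw [h1, h2, List.count_append, hx2]
        obtain ⟨g1, g2⟩ := ih2 i hi
        constructor
        · calc (i / b + 1) * u = u + (i / b) * u := by ring
            _ ≤ _ := by omega
        · calc u + (w'.take i).count true ≤ u + (i / b + 1) * u := by omega
            _ = _ := by ring
    · rcases lt_or_ge j b with h | h
      · have h1 : (x ++ w').take j = x.take j := List.take_append_of_le_length (by omega)
        refine ⟨[], ?_, x.take j, ?_, ?_⟩
        · rw [Nat.div_eq_of_lt h]
          simp [Pat]
        · rw [List.length_take, Nat.mod_eq_of_lt h]
          omega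
        · rw [h1]
          rfl
      · obtain ⟨i, rfl⟩ : ∃ i, j = b + i := ⟨j - b, by omega⟩
        have hi : i ≤ b * J := by
          have : b * (J + 1) = b + b * J := by ring
          omega
        have h1 : (x ++ w').take (b + i) = x ++ w'.take i := by
          rw [List.take_append, List.take_of_length_le (by omega), hx1]
          congr 2
          omega
        have h2 : (b + i) / b = i / b + 1 := by
          rw [Nat.add_div_left _ (by omega)]
        have h3 : (b + i) % b = i % b := Nat.add_mod_left b i
        obtain ⟨v, hv, r, hr, hvr⟩ := ih3 i hi
        refine ⟨x ++ v, ?_, r, ?_, ?_⟩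
        · rw [h2]
          show x ++ v ∈ (Blk b u ×ˢ Pat b u (i / b)).image (fun x => x.1 ++ x.2)
          refine Finset.mem_image.2 ⟨(x, v), Finset.mem_product.2 ⟨(mem_Blk b u x).2 ⟨hx1, hx2⟩, hv⟩, rfl⟩
        · rw [h3, hr]
        · rw [h1, hvr, List.append_assoc]

end Pool.Agent.N868.CL.E
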